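import Pool.Agent.Helper79_TOR.Stmts

set_option autoImplicit false

/-!
# Team TOR, block T2-STAB, modules PLA and PLL
-/

namespace Pool.Agent.TST.H4

open Pointwise Set Pool.Agent.TOR Pool.Agent.TST

section

variable {ι δ : Type}

lemma mem_pl {E : Set (FreeGroup ι)} {g : FreeGroup (ι ⊕ δ)} : g ∈ pl δ E ↔ hd g ∈ E := Iff.rfl

lemma jn_inj (h : IsHd (hd : FreeGroup (ι ⊕ δ) → FreeGroup ι)) :
    Function.Injective (jn δ : FreeGroup ι → FreeGroup (ι ⊕ δ)) := fun x y hxy => by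
  rw [← h.old x, ← h.old y, hxy]

lemma pl_smul (h : IsHd (hd : FreeGroup (ι ⊕ δ) → FreeGroup ι)) (g : FreeGroup ι)
    (E : Set (FreeGroup ι)) : pl δ (g • E) = jn δ g • pl δ E := by
  ext u
  rw [mem_pl, Set.mem_smul_set_iff_inv_smul_mem, Set.mem_smul_set_iff_inv_smul_mem, mem_pl,
    smul_eq_mul, smul_eq_mul, ← map_inv, h.left]

lemma pl_compl (E : Set (FreeGroup ι)) : pl δ Eᶜ = (pl δ E)ᶜ := rfl

/-! ### PLA -/

/-- the directions with finite coboundary -/
def CD {F : Type} [Group F] (A : Set F) : Subgroup F where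
  carrier := {x | {y : F | ¬ (y ∈ A ↔ y * x ∈ A)}.Finite}
  one_mem' := by
    have : {y : F | ¬ (y ∈ A ↔ y * 1 ∈ A)} = ∅ := by
      ext y; simp
    change Set.Finite {y : F | ¬ (y ∈ A ↔ y * 1 ∈ A)}
    rw [this]; exact Set.finite_empty
  mul_mem' := by
    intro a b ha hb
    have hb' : ((fun y => y * a) ⁻¹' {y : F | ¬ (y ∈ A ↔ y * b ∈ A)}).Finite :=
      hb.preimage (mul_left_injective a).injOn
    refine (ha.union hb').subset ?_
    intro y hy
    by_contra hcon
    rw [Set.mem_union, not_or] at hcon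
    obtain ⟨h1, h2⟩ := hcon
    have h1' : y ∈ A ↔ y * a ∈ A := not_not.1 h1
    have h2' : y * a ∈ A ↔ y * a * b ∈ A := not_not.1 h2
    apply hy
    rw [h1', h2', mul_assoc]
  inv_mem' := by
    intro a ha
    have ha' : ((fun y => y * a⁻¹) ⁻¹' {y : F | ¬ (y ∈ A ↔ y * a ∈ A)}).Finite :=
      ha.preimage (mul_left_injective a⁻¹).injOn
    refine ha'.subset ?_
    intro y hy
    change ¬ (y * a⁻¹ ∈ A ↔ y * a⁻¹ * a ∈ A)
    rw [inv_mul_cancel_right]
    intro h
    exact hy h.symm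

lemma ai_iff {F : Type} [Group F] {A : Set F} : AI A ↔ ∀ x, x ∈ CD A := Iff.rfl

lemma cob_jn (h : IsHd (hd : FreeGroup (ι ⊕ δ) → FreeGroup ι)) (E : Set (FreeGroup ι))
    (u : FreeGroup ι) (y : FreeGroup (ι ⊕ δ)) (hy : y ∉ (jn δ : FreeGroup ι →* _).range) :
    (y ∈ pl δ E ↔ y * jn δ u ∈ pl δ E) := by
  rw [mem_pl, mem_pl, h.right y u hy]

lemma ind_congr {F : Type} {A : Set F} {x y : F} (h : x ∈ A ↔ y ∈ A) : ind A x = ind A y := by
  by_cases hx : x ∈ A
  · have hy := h.1 hx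
    simp [ind, hx, hy]
  · have hy : y ∉ A := fun hy => hx (h.2 hy)
    simp [ind, hx, hy]

lemma ind_pl (E : Set (FreeGroup ι)) (g : FreeGroup (ι ⊕ δ)) :
    ind (pl δ E) g = ind E (hd g) := by
  by_cases hx : hd g ∈ E
  · have hy : g ∈ pl δ E := hx
    simp [ind, hx, hy]
  · have hy : g ∉ pl δ E := hx
    simp [ind, hx, hy]

theorem pla (hH : HDS) : PLA := by
  intro ι δ E hE
  have h := hH ι δ
  refine ⟨?_, ?_, ?_⟩
  · rw [ai_iff]
    intro x
    have htop : (⊤ : Subgroup (FreeGroup (ι ⊕ δ))) ≤ CD (pl δ E) := by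
      rw [← FreeGroup.closure_range_of, Subgroup.closure_le]
      rintro _ ⟨b, rfl⟩
      rcases b with i | d
      · have e : (FreeGroup.of (Sum.inl i : ι ⊕ δ)) = jn δ (FreeGroup.of i) := by rw [mof]
        rw [e]
        change Set.Finite {y | ¬ (y ∈ pl δ E ↔ y * jn δ (FreeGroup.of i) ∈ pl δ E)}
        refine ((hE (FreeGroup.of i)).image (jn δ)).subset ?_
        intro y hy
        by_cases hr : y ∈ (jn δ : FreeGroup ι →* _).range
        · obtain ⟨w, rfl⟩ := hr
          refine ⟨w, ?_, rfl⟩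
          change ¬ (jn δ w ∈ pl δ E ↔ jn δ w * jn δ (FreeGroup.of i) ∈ pl δ E) at hy
          rw [← map_mul, mem_pl, mem_pl, h.old, h.old] at hy
          exact hy
        · exact absurd (cob_jn h E _ y hr) hy
      · change Set.Finite {y | ¬ (y ∈ pl δ E ↔ y * FreeGroup.of (Sum.inr d) ∈ pl δ E)}
        have : {y | ¬ (y ∈ pl δ E ↔ y * FreeGroup.of (Sum.inr d) ∈ pl δ E)} = ∅ := by
          ext y
          simp only [Set.mem_ofPred_eq, Set.mem_empty_iff_false, iff_false, not_not]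
          rw [mem_pl, mem_pl, h.new]
        rw [this]; exact Set.finite_empty
    exact htop (Subgroup.mem_top x)
  · intro u
    unfold cl
    have hs : Function.support (fun y : FreeGroup (ι ⊕ δ) =>
        ind (pl δ E) (y * jn δ u) - ind (pl δ E) y) ⊆ Set.range (jn δ : FreeGroup ι → _) := by
      intro y hy
      by_contra hr
      apply hy
      have h1 := cob_jn h E u y (fun ⟨w, hw⟩ => hr ⟨w, hw⟩)
      change ind (pl δ E) (y * jn δ u) - ind (pl δ E) y = 0
      rw [ind_congr h1, sub_self]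
    have h2 := finsum_mem_range (f := fun y : FreeGroup (ι ⊕ δ) =>
        ind (pl δ E) (y * jn δ u) - ind (pl δ E) y) (jn_inj h)
    rw [finsum_mem_def, Set.indicator_eq_self.2 hs] at h2
    rw [h2]
    refine finsum_congr fun w => ?_
    rw [← map_mul, ind_pl, ind_pl, h.old, h.old]
  · intro d
    unfold cl
    have : ∀ y : FreeGroup (ι ⊕ δ),
        ind (pl δ E) (y * FreeGroup.of (Sum.inr d)) - ind (pl δ E) y = 0 := by
      intro y
      rw [ind_pl, ind_pl, h.new, sub_self]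
    simp only [this, finsum_zero]

/-! ### PLL -/

theorem pll (hH : HDS) : PLL := by
  intro ι δ κ E D s hl
  have h := hH ι δ
  have h1 : hd (1 : FreeGroup (ι ⊕ δ)) = (1 : FreeGroup ι) := by
    rw [← map_one (jn δ), h.old]
  have hs1 : s ≠ 1 := fun e => hl.one (e ▸ hl.hs)
  -- D is not a singleton
  have hns : ¬ D ⊆ {s} := by
    intro hD
    have hD' : D = {s} := Set.Subset.antisymm hD (Set.singleton_subset_iff.2 hl.hs)
    have h2 := hl.only s⁻¹ (by
      rw [hD', Set.mem_smul_set_iff_inv_smul_mem, Set.mem_smul_set_iff_inv_smul_mem,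
        smul_eq_mul, smul_eq_mul, inv_inv, mul_one, Set.mem_singleton_iff, Set.mem_singleton_iff]
      intro h3
      have h4 := h3.1 rfl
      exact hs1 (mul_left_cancel (a := s) (by rw [h4, mul_one])))
    exact hs1 (inv_eq_one.1 h2)
  have hmem : ∀ C : Set (FreeGroup ι), C ∈ HS E → pl δ C ∈ HS fun j => pl δ (E j) := by
    rintro C ⟨j, g, hg | hg⟩
    · exact ⟨j, jn δ g, Or.inl (by rw [hg, pl_smul h])⟩
    · exact ⟨j, jn δ g, Or.inr (by rw [hg, pl_compl, pl_smul h])⟩
  -- a set that is constant on the part away from one point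
  have hkey : ∀ (C : Set (FreeGroup (ι ⊕ δ))) (x : FreeGroup ι),
      (∀ u, hd u ≠ x → (u ∈ C ↔ (1 : FreeGroup (ι ⊕ δ)) ∈ C)) → (1 : FreeGroup (ι ⊕ δ)) ∉ C →
      pl δ D ⊆ C → False := by
    intro C x hC h1C hDC
    have hsub : D ⊆ {x} := by
      intro y hy
      by_contra hyx
      have h2 : jn δ y ∈ C := hDC (by rw [mem_pl, h.old]; exact hy)
      rw [hC _ (by rw [h.old]; exact hyx)] at h2
      exact h1C h2
    have hx : s = x := hsub hl.hs
    rw [← hx] at hsub
    exact hns hsub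
  refine ⟨hmem D hl.mem, ?_, ?_, ?_, ?_⟩
  · rw [mem_pl, h1]; exact hl.one
  · rw [mem_pl, h.old]; exact hl.hs
  · rintro C ⟨j, g, hg⟩ h1C hDC
    by_cases hr : g ∈ (jn δ : FreeGroup ι →* _).range
    · obtain ⟨k, rfl⟩ := hr
      obtain ⟨C', hC', hCC⟩ : ∃ C' ∈ HS E, C = pl δ C' := by
        rcases hg with hg | hg
        · exact ⟨k • E j, ⟨j, k, Or.inl rfl⟩, by rw [hg, pl_smul h]⟩
        · exact ⟨(k • E j)ᶜ, ⟨j, k, Or.inr rfl⟩, by rw [hg, pl_compl, pl_smul h]⟩
      rw [hCC] at h1C hDC ⊢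
      rw [mem_pl, h1] at h1C
      rw [hl.vis C' hC' h1C fun y hy => by
        have h2 := hDC (show jn δ y ∈ pl δ D by rw [mem_pl, h.old]; exact hy)
        rw [mem_pl, h.old] at h2
        exact h2]
    · exfalso
      have hconst : ∀ u, hd u ≠ hd g →
          (u ∈ g • pl δ (E j) ↔ (1 : FreeGroup (ι ⊕ δ)) ∈ g • pl δ (E j)) := by
        intro u hu
        rw [Set.mem_smul_set_iff_inv_smul_mem, Set.mem_smul_set_iff_inv_smul_mem, smul_eq_mul,
          smul_eq_mul, mul_one, mem_pl, mem_pl, (h.dich g hr u).resolve_left hu]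
      refine hkey C (hd g) (fun u hu => ?_) h1C hDC
      rcases hg with hg | hg
      · rw [hg]; exact hconst u hu
      · rw [hg, Set.mem_compl_iff, Set.mem_compl_iff, hconst u hu]
  · intro g hg
    rw [Set.mem_smul_set_iff_inv_smul_mem, Set.mem_smul_set_iff_inv_smul_mem, smul_eq_mul,
      smul_eq_mul, mul_one, mem_pl, mem_pl] at hg
    by_cases hr : g⁻¹ ∈ (jn δ : FreeGroup ι →* _).range
    · obtain ⟨k, hk⟩ := hr
      rw [← hk, ← map_mul, h.old, h.old] at hg
      have h2 := hl.only k⁻¹ (by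
        rw [Set.mem_smul_set_iff_inv_smul_mem, Set.mem_smul_set_iff_inv_smul_mem, smul_eq_mul,
          smul_eq_mul, mul_one, inv_inv]
        exact hg)
      have h3 : k = 1 := inv_eq_one.1 h2
      rw [h3, map_one] at hk
      exact inv_eq_one.1 hk.symm
    · exact absurd (by rw [h.right _ _ hr]) hg

end

end Pool.Agent.TST.H4
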